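import Mathlib

/-!
# Counting small integers and small elements of ideals of a number field
-/

set_option autoImplicit false
set_option linter.all false

open NumberField Module
open scoped NNReal ENNReal nonZeroDivisors

namespace Pool.Agent.K7.H89.CL

section count

variable (K : Type) [Field K] [NumberField K]

/-- The number of the integers all of whose conjugates are at most `R`. -/
theorem count_small : ∃ C : ℝ, 0 < C ∧ ∀ R : ℝ, 0 ≤ R → ∃ T : Finset (𝓞 K),
    (T.card : ℝ) ≤ (C * R + 1) ^ finrank ℚ K ∧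
    ∀ z : 𝓞 K, (∀ φ : K →+* ℂ, ‖φ z‖ ≤ R) → z ∈ T := by
  classical
  -- the coordinates
  let ι := Free.ChooseBasisIndex ℤ (𝓞 K)
  let b := canonicalEmbedding.latticeBasis K
  let ℓ : ι → ((K →+* ℂ) → ℂ) →L[ℂ] ℂ := fun i => LinearMap.toContinuousLinearMap (b.coord i)
  let C0 : ℝ := ∑ i, ‖ℓ i‖
  have hC0 : 0 ≤ C0 := Finset.sum_nonneg fun i _ => ContinuousLinearMap.opNorm_nonneg (ℓ i)
  have hc : ∀ (z : 𝓞 K) (R : ℝ), (∀ φ : K →+* ℂ, ‖φ z‖ ≤ R) → ∀ i,
      |(((RingOfIntegers.basis K).repr z i : ℤ) : ℝ)| ≤ C0 * R := by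
    intro z R hz i
    have h1 : b.repr (canonicalEmbedding K (z : K)) i = ((RingOfIntegers.basis K).repr z i : ℤ) := by
      rw [canonicalEmbedding.integralBasis_repr_apply]
      have h2 := integralBasis_repr_apply (K := K) z i
      rw [h2]
      simp
    have h3 : ‖canonicalEmbedding K (z : K)‖ ≤ R := (canonicalEmbedding.norm_le_iff _ _).2 hz
    have h4 : ‖ℓ i (canonicalEmbedding K (z : K))‖ ≤ ‖ℓ i‖ * R :=
      (ContinuousLinearMap.le_opNorm _ _).trans (mul_le_mul_of_nonneg_left h3 (ContinuousLinearMap.opNorm_nonneg (ℓ i)))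
    have h5 : ℓ i (canonicalEmbedding K (z : K)) = ((RingOfIntegers.basis K).repr z i : ℤ) := h1
    rw [h5] at h4
    have h6 : ‖((((RingOfIntegers.basis K).repr z i : ℤ)) : ℂ)‖ =
        |(((RingOfIntegers.basis K).repr z i : ℤ) : ℝ)| := by
      rw [Complex.norm_intCast]
    rw [← h6]
    refine h4.trans (mul_le_mul_of_nonneg_right ?_ ((norm_nonneg _).trans h3))
    exact Finset.single_le_sum (f := fun i => ‖ℓ i‖) (fun j _ => ContinuousLinearMap.opNorm_nonneg (ℓ j)) (Finset.mem_univ i)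
  refine ⟨2 * C0 + 1, by positivity, fun R hR => ?_⟩
  let B : ℤ := ⌊C0 * R⌋
  have hB : 0 ≤ B := Int.floor_nonneg.2 (by positivity)
  let P : Finset (ι → ℤ) := Fintype.piFinset fun _ => Finset.Icc (-B) B
  let T : Finset (𝓞 K) := P.image fun v => (RingOfIntegers.basis K).equivFun.symm v
  refine ⟨T, ?_, fun z hz => ?_⟩
  · have h1 : T.card ≤ P.card := Finset.card_image_le
    have h2 : P.card = (2 * B + 1).toNat ^ finrank ℚ K := by
      rw [Fintype.card_piFinset]
      simp only [Int.card_Icc, Finset.prod_const, Finset.card_univ]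
      rw [← RingOfIntegers.rank K, finrank_eq_card_chooseBasisIndex ℤ (𝓞 K)]
      congr 2
      ring
    have h3 : (T.card : ℝ) ≤ (((2 * B + 1).toNat : ℕ) : ℝ) ^ finrank ℚ K := by
      have : T.card ≤ (2 * B + 1).toNat ^ finrank ℚ K := h1.trans h2.le
      exact_mod_cast this
    refine h3.trans (pow_le_pow_left₀ (by positivity) ?_ _)
    have h4 : (((2 * B + 1).toNat : ℕ) : ℝ) = 2 * (B : ℝ) + 1 := by
      have : (((2 * B + 1).toNat : ℕ) : ℤ) = 2 * B + 1 := Int.toNat_of_nonneg (by omega)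
      have h := congrArg (fun t : ℤ => (t : ℝ)) this
      push_cast at h
      simpa using h
    rw [h4]
    have h5 : (B : ℝ) ≤ C0 * R := Int.floor_le _
    nlinarith
  · refine Finset.mem_image.2 ⟨(RingOfIntegers.basis K).equivFun z, ?_,
      LinearEquiv.symm_apply_apply _ _⟩
    refine Fintype.mem_piFinset.2 fun i => Finset.mem_Icc.2 ?_
    have h1 := hc z R hz i
    rw [abs_le] at h1
    have h2 : (RingOfIntegers.basis K).equivFun z i = (RingOfIntegers.basis K).repr z i := rfl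
    rw [h2]
    constructor
    · have : -((RingOfIntegers.basis K).repr z i) ≤ B := by
        rw [Int.le_floor]
        push_cast
        linarith [h1.1]
      omega
    · rw [Int.le_floor]
      exact h1.2

end count

section mink

variable (K : Type) [Field K] [NumberField K]

/-- **Minkowski's theorem** for ideals. -/
theorem mink : ∃ C : ℝ, 0 < C ∧ ∀ (J : Ideal (𝓞 K)), J ≠ ⊥ → ∀ f : InfinitePlace K → ℝ≥0,
    (Ideal.absNorm J : ℝ) * C ≤ ∏ w, (f w : ℝ) ^ InfinitePlace.mult w →
    ∃ η ∈ J, η ≠ 0 ∧ ∀ w : InfinitePlace K, w (η : K) ≤ f w := by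
  classical
  let V : ℝ≥0∞ := mixedEmbedding.minkowskiBound K ↑(1 : (FractionalIdeal (𝓞 K)⁰ K)ˣ)
  have hV : V < ⊤ := mixedEmbedding.minkowskiBound_lt_top K _
  let C : ℝ := V.toReal + 1
  have hC : 0 < C := by positivity
  refine ⟨C, hC, fun J hJ f hf => ?_⟩
  have hJ' : J ∈ (Ideal (𝓞 K))⁰ := mem_nonZeroDivisors_of_ne_zero hJ
  let I : (FractionalIdeal (𝓞 K)⁰ K)ˣ := FractionalIdeal.mk0 K ⟨J, hJ'⟩
  have hN : 0 < Ideal.absNorm J := by
    rw [Nat.pos_iff_ne_zero, Ne, Ideal.absNorm_eq_zero_iff]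
    exact hJ
  have hVI : mixedEmbedding.minkowskiBound K I = (Ideal.absNorm J : ℝ≥0∞) * V := by
    have h1 : mixedEmbedding.minkowskiBound K I = .ofReal (FractionalIdeal.absNorm I.1) * V := by
      simp only [V, mixedEmbedding.minkowskiBound,
        mixedEmbedding.volume_fundamentalDomain_fractionalIdealLatticeBasis]
      rw [Units.val_one, FractionalIdeal.absNorm_one, Rat.cast_one, ENNReal.ofReal_one, one_mul,
        mul_assoc]
    rw [h1]
    congr 1
    have h2 : FractionalIdeal.absNorm I.1 = (Ideal.absNorm J : ℚ) := by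
      simp only [I]
      exact FractionalIdeal.coeIdeal_absNorm J
    rw [h2]
    simp
  have hlt : mixedEmbedding.minkowskiBound K I <
      MeasureTheory.volume (mixedEmbedding.convexBodyLT K f) := by
    rw [hVI, mixedEmbedding.convexBodyLT_volume]
    have h1 : (Ideal.absNorm J : ℝ≥0∞) * V < ENNReal.ofReal (Ideal.absNorm J * C) := by
      have h2 : V < ENNReal.ofReal C := by
        rw [← ENNReal.ofReal_toReal hV.ne]
        exact (ENNReal.ofReal_lt_ofReal_iff hC).2 (by simp [C])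
      rw [ENNReal.ofReal_mul (by positivity), ENNReal.ofReal_natCast]
      exact (ENNReal.mul_lt_mul_iff_right (by exact_mod_cast hN.ne') (ENNReal.natCast_ne_top _)).2 h2
    refine h1.trans_le ?_
    have h3 : ENNReal.ofReal (Ideal.absNorm J * C) ≤
        ((∏ w, (f w) ^ InfinitePlace.mult w : ℝ≥0) : ℝ≥0∞) := by
      rw [← ENNReal.ofReal_coe_nnreal]
      apply ENNReal.ofReal_le_ofReal
      push_cast
      exact hf
    refine h3.trans ?_
    have h4 : (1 : ℝ≥0∞) ≤ (mixedEmbedding.convexBodyLTFactor K : ℝ≥0∞) := by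
      rw [← ENNReal.coe_one, ENNReal.coe_le_coe]
      exact mixedEmbedding.one_le_convexBodyLTFactor K
    have h5 : ((∏ w, (f w) ^ InfinitePlace.mult w : ℝ≥0) : ℝ≥0∞) =
        ∏ w, (f w : ℝ≥0∞) ^ InfinitePlace.mult w := by push_cast; rfl
    rw [h5]
    exact le_mul_of_one_le_left' h4
  obtain ⟨a, haI, ha0, haf⟩ := mixedEmbedding.exists_ne_zero_mem_ideal_lt K I hlt
  have haJ : a ∈ (J : FractionalIdeal (𝓞 K)⁰ K) := haI
  rw [FractionalIdeal.mem_coeIdeal] at haJ
  obtain ⟨η, hη, rfl⟩ := haJ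
  refine ⟨η, hη, ?_, fun w => (haf w).le⟩
  rintro rfl
  exact ha0 (map_zero _)

end mink

end Pool.Agent.K7.H89.CL
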