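import Pool.Agent.K7.H89.CL.A

/-!
# The colon ideal and its index
-/

set_option autoImplicit false
set_option linter.all false

open NumberField Module Polynomial

namespace Pool.Agent.K7.H89.CL

/-- The factor of `F(x, m) - m ^ n f(T)`. -/
theorem exists_factor {f : ℤ[X]} (hf : f.Monic) {x m : ℤ} (hm : m ≠ 0) (hn : 1 ≤ f.natDegree) :
    ∃ P : ℤ[X], C ((f.scaleRoots m).eval x) - C (m ^ f.natDegree) * f = (C x - C m * X) * P ∧
      P.natDegree = f.natDegree - 1 ∧ P.coeff (f.natDegree - 1) = m ^ (f.natDegree - 1) := by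
  set n := f.natDegree with hn'
  have h1 := sub_dvd_eval_sub (C x) (C m * X) ((f.scaleRoots m).map (C : ℤ →+* ℤ[X]))
  rw [eval_map, eval_map] at h1
  have h2 : eval₂ (C : ℤ →+* ℤ[X]) (C m * X) (f.scaleRoots m) = C (m ^ n) * f := by
    rw [scaleRoots_eval₂_mul]
    rw [eval₂_C_X, ← hn', C_pow]
  have h3 : eval₂ (C : ℤ →+* ℤ[X]) (C x) (f.scaleRoots m) = C ((f.scaleRoots m).eval x) := by
    rw [eval₂_at_apply]
  rw [h2, h3] at h1
  obtain ⟨P, hP⟩ := h1
  refine ⟨P, hP, ?_⟩
  have hmn : m ^ n ≠ 0 := pow_ne_zero _ hm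
  set F := (f.scaleRoots m).eval x
  have hf0 : f ≠ 0 := hf.ne_zero
  have d1 : (C F - C (m ^ n) * f).natDegree = n := by
    have : (C F - C (m ^ n) * f) = -(C (m ^ n) * f) + C F := by ring
    rw [this, natDegree_add_C, natDegree_neg, natDegree_C_mul hmn]
  have l1 : (C F - C (m ^ n) * f).leadingCoeff = -m ^ n := by
    unfold leadingCoeff
    rw [d1, coeff_sub, coeff_C, if_neg (by omega), coeff_C_mul]
    have : f.coeff n = 1 := hf
    rw [this]
    ring
  have hP0 : P ≠ 0 := by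
    rintro rfl
    rw [mul_zero] at hP
    rw [hP] at l1
    rw [leadingCoeff_zero] at l1
    exact neg_ne_zero.2 hmn l1.symm
  have hlin : (C x - C m * X : ℤ[X]) = C (-m) * X + C x := by
    rw [C_neg]; ring
  have dl : (C x - C m * X : ℤ[X]).natDegree = 1 := by
    rw [hlin]
    exact natDegree_linear (neg_ne_zero.2 hm)
  have ll : (C x - C m * X : ℤ[X]).leadingCoeff = -m := by
    rw [hlin]
    exact leadingCoeff_linear (neg_ne_zero.2 hm)
  have hl0 : (C x - C m * X : ℤ[X]) ≠ 0 := by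
    intro h
    rw [h] at dl
    simp at dl
  have d2 : P.natDegree = n - 1 := by
    rw [hP, natDegree_mul hl0 hP0, dl] at d1
    omega
  refine ⟨d2, ?_⟩
  rw [hP, leadingCoeff_mul, ll] at l1
  have h5 : P.leadingCoeff = P.coeff (n - 1) := by rw [leadingCoeff, d2]
  rw [h5] at l1
  have h6 : m ^ n = m * m ^ (n - 1) := by
    rw [← pow_succ']
    congr 1
    omega
  rw [h6] at l1
  have h7 : m * P.coeff (n - 1) = m * m ^ (n - 1) := by linarith
  exact mul_left_cancel₀ hm h7

section field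

variable {K : Type} [Field K] [NumberField K]

/-- common denominators of a linear functional on the ring of integers -/
theorem exists_denom (lam : K →ₗ[ℚ] ℚ) :
    ∃ c : ℕ, 0 < c ∧ ∀ z : 𝓞 K, ∃ t : ℤ, (c : ℚ) * lam (z : K) = t := by
  classical
  let b := RingOfIntegers.basis K
  refine ⟨∏ i, (lam (b i : K)).den, Finset.prod_pos fun i _ => Rat.den_pos _, fun z => ?_⟩
  have h1 : ∀ i, ∃ t : ℤ, ((∏ j, (lam (b j : K)).den : ℕ) : ℚ) * lam (b i : K) = t := by
    intro i
    refine ⟨(∏ j ∈ Finset.univ.erase i, ((lam (b j : K)).den : ℤ)) * (lam (b i : K)).num, ?_⟩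
    rw [← Finset.mul_prod_erase Finset.univ _ (Finset.mem_univ i)]
    push_cast
    have h2 : ((lam (b i : K)).den : ℚ) * lam (b i : K) = (lam (b i : K)).num := by
      rw [mul_comm]
      exact Rat.mul_den_eq_num _
    calc _ = (∏ j ∈ Finset.univ.erase i, ((lam (b j : K)).den : ℚ)) *
          (((lam (b i : K)).den : ℚ) * lam (b i : K)) := by ring
      _ = _ := by rw [h2]
  choose t ht using h1
  have hz : (z : K) = ∑ i, (b.repr z i) • (b i : K) := by
    have h3 := b.sum_repr z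
    have h4 := congrArg (algebraMap (𝓞 K) K) h3
    rw [map_sum] at h4
    refine h4.symm.trans ?_
    refine Finset.sum_congr rfl fun i _ => ?_
    exact map_zsmul (algebraMap (𝓞 K) K) _ _
  refine ⟨∑ i, b.repr z i * t i, ?_⟩
  rw [hz, map_sum, Finset.mul_sum]
  push_cast
  refine Finset.sum_congr rfl fun i _ => ?_
  rw [← ht i, map_zsmul, zsmul_eq_mul]
  push_cast
  ring

/-- The index of the ideal `(β, y)`. -/
theorem index_le {lam : K →ₗ[ℚ] ℚ} {c : ℕ} (hc0 : 0 < c)
    (hc : ∀ z : 𝓞 K, ∃ t : ℤ, (c : ℚ) * lam (z : K) = t) {β : 𝓞 K} {y l : ℤ} (hy : y ≠ 0)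
    (hl : lam (β : K) = l) (hly : IsCoprime l y) :
    (Ideal.absNorm (Ideal.span {β, (y : 𝓞 K)}) : ℝ) * |(y : ℝ)| ≤
      c * |(y : ℝ)| ^ finrank ℚ K := by
  set J := Ideal.span {β, (y : 𝓞 K)} with hJ
  set H := Ideal.span {(y : 𝓞 K)} with hH
  have hHJ : H ≤ J := Ideal.span_mono (by simp)
  have hyO : (y : 𝓞 K) ≠ 0 := by exact_mod_cast hy
  have iH : (Submodule.toAddSubgroup H).index = y.natAbs ^ finrank ℚ K := by
    have h1 : (Submodule.toAddSubgroup H).index = Ideal.absNorm H := by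
      rw [Ideal.absNorm_apply, Submodule.cardQuot_apply]
      rfl
    rw [h1, hH, Ideal.absNorm_span_singleton]
    have h2 : Algebra.norm ℤ (y : 𝓞 K) = y ^ finrank ℚ K := by
      have := Algebra.norm_algebraMap (R := ℤ) (S := 𝓞 K) y
      rw [RingOfIntegers.rank] at this
      rw [← this]
      simp
    rw [h2, Int.natAbs_pow]
  have iJ : (Submodule.toAddSubgroup J).index = Ideal.absNorm J := by
    rw [Ideal.absNorm_apply, Submodule.cardQuot_apply]
    rfl
  have hle : Submodule.toAddSubgroup H ≤ Submodule.toAddSubgroup J := hHJ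
  have hmul := AddSubgroup.relIndex_mul_index hle
  set r := (Submodule.toAddSubgroup H).relIndex (Submodule.toAddSubgroup J) with hr
  rw [iH, iJ] at hmul
  have hr0 : r ≠ 0 := by
    intro h
    rw [h, zero_mul] at hmul
    exact pow_ne_zero _ (Int.natAbs_ne_zero.2 hy) hmul.symm
  -- a multiple of `β`
  have hβ : β ∈ J := Ideal.subset_span (by simp)
  have hrβ : (r : 𝓞 K) * β ∈ H := by
    have h1 := AddSubgroup.nsmul_index_mem
      ((Submodule.toAddSubgroup H).addSubgroupOf (Submodule.toAddSubgroup J)) ⟨β, hβ⟩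
    rw [AddSubgroup.mem_addSubgroupOf] at h1
    rw [← nsmul_eq_mul]
    exact h1
  obtain ⟨z, hz⟩ := Ideal.mem_span_singleton'.1 hrβ
  obtain ⟨t, ht⟩ := hc z
  have h3 : (c : ℤ) * r * l = y * t := by
    have h4 : lam (((r : 𝓞 K) * β : 𝓞 K) : K) = r * l := by
      have : (((r : 𝓞 K) * β : 𝓞 K) : K) = r • (β : K) := by
        rw [nsmul_eq_mul]
        push_cast
        rfl
      rw [this, map_nsmul, hl, nsmul_eq_mul]
    rw [← hz] at h4
    have h5 : ((z * (y : 𝓞 K) : 𝓞 K) : K) = y • (z : K) := by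
      rw [zsmul_eq_mul]
      push_cast
      rw [mul_comm]
      rfl
    rw [h5, map_zsmul, zsmul_eq_mul] at h4
    have h6 : (c : ℚ) * r * l = y * t := by
      rw [← ht, mul_assoc, ← h4]
      ring
    exact_mod_cast h6
  have h7 : y ∣ (c : ℤ) * r := by
    exact (hly.symm).dvd_of_dvd_mul_right ⟨t, h3⟩
  have h8 : |y| ≤ c * r := by
    have h9 : (0 : ℤ) < c * r := by positivity
    exact Int.le_of_dvd h9 ((abs_dvd _ _).2 h7)
  have h10 : (|(y : ℝ)|) ≤ c * r := by exact_mod_cast h8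
  have h11 : (r : ℝ) * Ideal.absNorm J = |(y : ℝ)| ^ finrank ℚ K := by
    have h12 := congrArg (fun t : ℕ => (t : ℝ)) hmul
    push_cast at h12
    rw [h12, Nat.cast_natAbs]
    push_cast
    rfl
  rw [← h11]
  have h13 : (0 : ℝ) ≤ Ideal.absNorm J := by positivity
  nlinarith

end field

end Pool.Agent.K7.H89.CL
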