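import Pool.Agent.K7.H89.CL.B

/-!
# Small representatives of the classes
-/

set_option autoImplicit false
set_option linter.all false

open NumberField Module Polynomial
open scoped NNReal

namespace Pool.Agent.K7.H89.CL

theorem comp_scale (f : ℤ[X]) (m : ℤ) :
    (f.scaleRoots m).comp (C m * X) = C (m ^ f.natDegree) * f := by
  have h2 : eval₂ (C : ℤ →+* ℤ[X]) (C m * X) (f.scaleRoots m) = C (m ^ f.natDegree) * f := by
    rw [scaleRoots_eval₂_mul, eval₂_C_X, C_pow]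
  exact h2

theorem coprime_eval {f : ℤ[X]} (hf : f.Monic) {x m : ℤ} (h : IsCoprime x m) :
    IsCoprime ((f.scaleRoots m).eval x) m := by
  have h1 : m ∣ (f.scaleRoots m).eval x - x ^ f.natDegree := by
    rw [eval_eq_sum_range, natDegree_scaleRoots, Finset.sum_range_succ, coeff_scaleRoots]
    have h2 : f.coeff f.natDegree = 1 := hf
    rw [h2, Nat.sub_self, pow_zero, mul_one, one_mul, add_sub_cancel_right]
    refine Finset.dvd_sum fun i hi => ?_
    rw [Finset.mem_range] at hi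
    rw [coeff_scaleRoots]
    refine Dvd.dvd.mul_right (Dvd.dvd.mul_left ?_ _) _
    exact dvd_pow_self m (by omega)
  obtain ⟨k, hk⟩ := h1
  have h3 : (f.scaleRoots m).eval x = x ^ f.natDegree + m * k := by linarith
  rw [h3]
  exact (h.pow_left).add_mul_left_left k

section field

variable {K : Type} [Field K] [NumberField K]

/-- The derivative of the scaled polynomial. -/
theorem deriv_scale (f : ℤ[X]) {m : ℤ} (hm : m ≠ 0) (hn : 1 ≤ f.natDegree) (θ : 𝓞 K) :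
    aeval ((m : 𝓞 K) * θ) (derivative (f.scaleRoots m)) =
      (m : 𝓞 K) ^ (f.natDegree - 1) * aeval θ (derivative f) := by
  have h1 := congrArg derivative (comp_scale f m)
  rw [derivative_comp, derivative_C_mul, derivative_C_mul, derivative_X, mul_one] at h1
  have h2 := congrArg (aeval θ) h1
  rw [map_mul, map_mul, aeval_C, aeval_C, aeval_comp, map_mul, aeval_C, aeval_X] at h2
  have e1 : ∀ t : ℤ, algebraMap ℤ (𝓞 K) t = (t : 𝓞 K) := fun t => by simp
  simp only [e1] at h2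
  have hm' : (m : 𝓞 K) ≠ 0 := by exact_mod_cast hm
  apply mul_left_cancel₀ hm'
  rw [h2, ← mul_assoc, ← pow_succ']
  push_cast
  congr 2
  omega

theorem core {f : ℤ[X]} (hf : f.Monic) (hn1 : 1 ≤ f.natDegree)
    (hn : f.natDegree = finrank ℚ K) {θ : 𝓞 K} (hθ : aeval θ f = 0)
    (hd : aeval θ (derivative f) ≠ 0) {lam : K →ₗ[ℚ] ℚ}
    (hlam : ∀ P : ℤ[X], P.natDegree < f.natDegree →
      lam ((aeval θ P : 𝓞 K) : K) = P.coeff (f.natDegree - 1))
    (hN : ∀ x m : ℤ, m ≠ 0 → Algebra.norm ℚ ((x : K) - m * (θ : K)) =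
      (((f.scaleRoots m).eval x : ℤ) : ℚ)) :
    ∃ A : ℝ, 0 < A ∧ ∀ x m g y : ℤ, m ≠ 0 → IsCoprime x m → g ≠ 0 → y ≠ 0 →
      (f.scaleRoots m).eval x = g * y ^ 2 → ∃ δ : 𝓞 K, δ ≠ 0 ∧
        (∀ φ : K →+* ℂ, ‖φ δ‖ ≤ A * |(g : ℝ)| ^ (1 / (f.natDegree : ℝ))) ∧
        ∃ b : K, b ^ 2 = (δ : K) * ((x : K) - m * (θ : K)) := by
  classical
  obtain ⟨c, hc0, hc⟩ := exists_denom lam
  obtain ⟨M, hM0, hM⟩ := mink K
  set n := f.natDegree with hn'
  set d := aeval θ (derivative f) with hd'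
  set W : ℝ := ∑ w : InfinitePlace K, w (d : K) with hW
  have hW0 : 0 ≤ W := Finset.sum_nonneg fun w _ => apply_nonneg w _
  have hWle : ∀ w : InfinitePlace K, w (d : K) ≤ W := fun w =>
    Finset.single_le_sum (f := fun w : InfinitePlace K => w (d : K))
      (fun _ _ => apply_nonneg _ _) (Finset.mem_univ w)
  have hcM : 0 < (c : ℝ) * M := by positivity
  refine ⟨W ^ 2 * ((c : ℝ) * M) ^ (2 / (n : ℝ)) + 1, by positivity, ?_⟩
  intro x m g y hm hxm hg hy hF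
  set α : 𝓞 K := (x : 𝓞 K) - (m : 𝓞 K) * θ with hα
  have hαK : (α : K) = (x : K) - m * (θ : K) := by
    rw [hα]
    push_cast
    rfl
  have hn0 : (0 : ℝ) < n := by exact_mod_cast hn1
  -- the factor
  obtain ⟨P, hP, hPd, hPc⟩ := exists_factor hf hm (x := x) hn1
  set β : 𝓞 K := aeval θ P with hβ
  have e1 : ∀ t : ℤ, algebraMap ℤ (𝓞 K) t = (t : 𝓞 K) := fun t => by simp
  have hαβ : α * β = (g : 𝓞 K) * (y : 𝓞 K) ^ 2 := by
    have h1 := congrArg (aeval θ) hP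
    simp only [map_sub, map_mul, aeval_C, aeval_X, hθ, mul_zero, sub_zero, e1] at h1
    rw [hα, hβ, ← h1, hF]
    push_cast
    ring
  have hF0 : (g : 𝓞 K) * (y : 𝓞 K) ^ 2 ≠ 0 := by
    have : (g * y ^ 2 : ℤ) ≠ 0 := mul_ne_zero hg (pow_ne_zero 2 hy)
    exact_mod_cast this
  have hα0 : α ≠ 0 := by
    intro h
    rw [h, zero_mul] at hαβ
    exact hF0 hαβ.symm
  -- the second relation
  obtain ⟨k, hk⟩ : ∃ k : 𝓞 K, (g : 𝓞 K) * (y : 𝓞 K) ^ 2 =
      (m : 𝓞 K) ^ (n - 1) * d * α + k * α ^ 2 := by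
    obtain ⟨k, hk⟩ := binomExpansion ((f.scaleRoots m).map (Int.castRingHom (𝓞 K)))
      ((m : 𝓞 K) * θ) α
    refine ⟨k, ?_⟩
    have h1 : (m : 𝓞 K) * θ + α = ((x : ℤ) : 𝓞 K) := by rw [hα]; ring
    rw [h1, derivative_map] at hk
    have h2 : eval ((x : ℤ) : 𝓞 K) ((f.scaleRoots m).map (Int.castRingHom (𝓞 K))) =
        (((f.scaleRoots m).eval x : ℤ) : 𝓞 K) := by
      have := eval_intCast_map (Int.castRingHom (𝓞 K)) (f.scaleRoots m) x
      simpa using this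
    have h3 : eval ((m : 𝓞 K) * θ) ((f.scaleRoots m).map (Int.castRingHom (𝓞 K))) = 0 := by
      rw [eval_map]
      have h4 := scaleRoots_eval₂_mul (p := f) (Int.castRingHom (𝓞 K)) θ m
      have h5 : eval₂ (Int.castRingHom (𝓞 K)) θ f = 0 := hθ
      rw [h5, mul_zero] at h4
      exact h4
    have h4 : eval ((m : 𝓞 K) * θ)
        ((derivative (f.scaleRoots m)).map (Int.castRingHom (𝓞 K))) =
        (m : 𝓞 K) ^ (n - 1) * d := by
      rw [eval_map]
      exact deriv_scale f hm hn1 θ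
    rw [h2, h3, h4, hF] at hk
    push_cast at hk
    rw [hk]
    ring
  -- coprimality
  have hFm := coprime_eval hf hxm
  have hym : IsCoprime y m := by
    rw [hF] at hFm
    exact hFm.of_isCoprime_of_dvd_left ⟨g * y, by ring⟩
  -- the ideal
  set J := Ideal.span {β, (y : 𝓞 K)} with hJ
  have hyO : (y : 𝓞 K) ≠ 0 := by exact_mod_cast hy
  have hJ0 : J ≠ ⊥ := by
    intro h
    have h1 : (y : 𝓞 K) ∈ J := Ideal.subset_span (by simp)
    rw [h] at h1
    exact hyO (by simpa using h1)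
  have hJy : (Ideal.absNorm J : ℝ) * |(y : ℝ)| ≤ c * |(y : ℝ)| ^ n := by
    rw [hn]
    have hl : lam (β : K) = ((m ^ (n - 1) : ℤ) : ℚ) := by
      rw [hβ, hlam P (by rw [hPd]; omega), hPc]
    exact index_le hc0 hc hy hl (hym.symm.pow_left)
  -- Minkowski
  have hA : ∀ w : InfinitePlace K, 0 < w (α : K) := fun w => by
    rw [InfinitePlace.pos_iff]
    exact_mod_cast hα0
  set y' : ℝ := |(y : ℝ)| with hy'
  have hy0 : 0 < y' := abs_pos.2 (by exact_mod_cast hy)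
  set g' : ℝ := |(g : ℝ)| with hg'
  have hg0 : 0 < g' := abs_pos.2 (by exact_mod_cast hg)
  set μ : ℝ := (c * M * √g') ^ (1 / (n : ℝ)) with hμ
  have hB0 : 0 < c * M * √g' := by positivity
  have hμ0 : 0 < μ := Real.rpow_pos_of_pos hB0 _
  have hμn : μ ^ n = c * M * √g' := by
    rw [hμ, ← Real.rpow_natCast, ← Real.rpow_mul hB0.le, one_div, inv_mul_cancel₀ hn0.ne',
      Real.rpow_one]
  have hμ2 : μ ^ 2 = (c * M) ^ (2 / (n : ℝ)) * g' ^ (1 / (n : ℝ)) := by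
    rw [hμ, ← Real.rpow_natCast, ← Real.rpow_mul hB0.le, Real.mul_rpow hcM.le (Real.sqrt_nonneg _),
      Real.sqrt_eq_rpow, ← Real.rpow_mul hg0.le]
    congr 2
    · push_cast; ring
    · push_cast; ring
  set Q : ℝ := ∏ w : InfinitePlace K, (√(w (α : K))) ^ InfinitePlace.mult w with hQ
  have hQ0 : 0 < Q := Finset.prod_pos fun w _ => pow_pos (Real.sqrt_pos.2 (hA w)) _
  have hQ2 : Q ^ 2 = g' * y' ^ 2 := by
    have h1 : Q ^ 2 = ∏ w : InfinitePlace K, (w (α : K)) ^ InfinitePlace.mult w := by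
      rw [hQ, ← Finset.prod_pow]
      refine Finset.prod_congr rfl fun w _ => ?_
      rw [← pow_mul, mul_comm, pow_mul, Real.sq_sqrt (hA w).le]
    rw [h1, InfinitePlace.prod_eq_abs_norm, hαK, hN x m hm, hF]
    push_cast
    rw [abs_mul, abs_pow]
  have hQ3 : Q = √g' * y' := by
    have h1 : Q ^ 2 = (√g' * y') ^ 2 := by rw [hQ2, mul_pow, Real.sq_sqrt hg0.le]
    exact (sq_eq_sq₀ hQ0.le (by positivity)).1 h1
  set F : InfinitePlace K → ℝ≥0 := fun w => ⟨y' * μ / √(w (α : K)), by positivity⟩ with hFdef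
  have hprod : ∏ w, (F w : ℝ) ^ InfinitePlace.mult w = (y' * μ) ^ n / Q := by
    have h1 : ∀ w : InfinitePlace K, (F w : ℝ) ^ InfinitePlace.mult w =
        (y' * μ) ^ InfinitePlace.mult w / (√(w (α : K))) ^ InfinitePlace.mult w := fun w => by
      rw [← div_pow]
      rfl
    rw [Finset.prod_congr rfl fun w _ => h1 w, Finset.prod_div_distrib, Finset.prod_pow_eq_pow_sum,
      InfinitePlace.sum_mult_eq, ← hn]
  obtain ⟨η, hηJ, hη0, hηw⟩ := hM J hJ0 F (by
    rw [hprod, le_div_iff₀ hQ0, hQ3, mul_pow, hμn]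
    have h1 : 0 ≤ M * √g' := by positivity
    have h2 := mul_le_mul_of_nonneg_right hJy h1
    calc _ = (Ideal.absNorm J : ℝ) * y' * (M * √g') := by ring
      _ ≤ _ := h2
      _ = _ := by ring)
  -- divisibility
  obtain ⟨u, hu⟩ : ∃ u : 𝓞 K, η * α = (y : 𝓞 K) * u := by
    obtain ⟨s, t, hst⟩ := Ideal.mem_span_pair.1 hηJ
    refine ⟨s * g * y + t * α, ?_⟩
    rw [← hst]
    linear_combination s * hαβ
  obtain ⟨v, hv⟩ : ∃ v : 𝓞 K, d * α * η ^ 2 = (y : 𝓞 K) ^ 2 * v := by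
    have h1 : IsCoprime (y ^ 2) (m ^ (n - 1)) := hym.pow
    obtain ⟨s, t, hst⟩ := h1
    have h2 : (s : 𝓞 K) * (y : 𝓞 K) ^ 2 + (t : 𝓞 K) * (m : 𝓞 K) ^ (n - 1) = 1 := by
      exact_mod_cast congrArg (fun z : ℤ => (z : 𝓞 K)) hst
    have h3 : (m : 𝓞 K) ^ (n - 1) * (d * α * η ^ 2) =
        (y : 𝓞 K) ^ 2 * (g * η ^ 2 - k * u ^ 2) := by
      have h4 : (η * α) ^ 2 = ((y : 𝓞 K) * u) ^ 2 := by rw [hu]
      linear_combination (-η ^ 2) * hk - k * h4
    refine ⟨(s : 𝓞 K) * (d * α * η ^ 2) + t * (g * η ^ 2 - k * u ^ 2), ?_⟩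
    calc d * α * η ^ 2 = 1 * (d * α * η ^ 2) := (one_mul _).symm
      _ = _ := by
          rw [← h2]
          linear_combination (t : 𝓞 K) * h3
  have hδy : d * v * (y : 𝓞 K) ^ 2 = d ^ 2 * α * η ^ 2 := by
    linear_combination (-d) * hv
  refine ⟨d * v, ?_, fun φ => ?_, (d : K) * (u : K), ?_⟩
  · intro h
    rw [h, zero_mul] at hδy
    exact mul_ne_zero (mul_ne_zero (pow_ne_zero 2 hd) hα0) (pow_ne_zero 2 hη0) hδy.symm
  · set w := InfinitePlace.mk φ with hw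
    have h1 : ‖φ ((d * v : 𝓞 K) : K)‖ = w ((d * v : 𝓞 K) : K) := rfl
    rw [h1]
    have h2 : w ((d * v : 𝓞 K) : K) * y' ^ 2 = w (d : K) ^ 2 * w (α : K) * w (η : K) ^ 2 := by
      have h3 := congrArg (fun z : 𝓞 K => w (z : K)) hδy
      simp only [map_mul, map_pow] at h3 ⊢
      have h4 : w ((y : 𝓞 K) : K) = y' := by
        rw [hw, InfinitePlace.apply]
        simp [hy']
      rw [h4] at h3
      exact h3
    have h5 : w (η : K) ^ 2 ≤ y' ^ 2 * μ ^ 2 / w (α : K) := by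
      have h6 := hηw w
      have h7 : (F w : ℝ) = y' * μ / √(w (α : K)) := rfl
      rw [h7] at h6
      have h8 := pow_le_pow_left₀ (apply_nonneg w _) h6 2
      rwa [div_pow, mul_pow, Real.sq_sqrt (hA w).le] at h8
    have h9 : w (α : K) * w (η : K) ^ 2 ≤ y' ^ 2 * μ ^ 2 := by
      rw [le_div_iff₀ (hA w)] at h5
      linarith
    have h10 : w ((d * v : 𝓞 K) : K) * y' ^ 2 ≤ (W ^ 2 * μ ^ 2) * y' ^ 2 := by
      rw [h2, mul_assoc]
      have h11 : w (d : K) ^ 2 ≤ W ^ 2 := pow_le_pow_left₀ (apply_nonneg w _) (hWle w) 2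
      calc _ ≤ W ^ 2 * (y' ^ 2 * μ ^ 2) := mul_le_mul h11 h9
            (mul_nonneg (hA w).le (sq_nonneg _)) (sq_nonneg _)
        _ = _ := by ring
    have h12 := le_of_mul_le_mul_right h10 (by positivity)
    refine h12.trans ?_
    rw [hμ2, add_mul, mul_assoc]
    have : 0 ≤ 1 * g' ^ (1 / (n : ℝ)) := by positivity
    linarith
  · have h1 : ((d * v : 𝓞 K) : K) * ((x : K) - m * (θ : K)) * (y : K) ^ 2 =
        ((d : K) * (u : K)) ^ 2 * (y : K) ^ 2 := by
      have h2 : d * v * α * (y : 𝓞 K) ^ 2 = (d * u) ^ 2 * (y : 𝓞 K) ^ 2 := by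
        have h4 : (η * α) ^ 2 = ((y : 𝓞 K) * u) ^ 2 := by rw [hu]
        linear_combination α * hδy + d ^ 2 * h4
      have h3 := congrArg (fun z : 𝓞 K => (z : K)) h2
      simp only [map_mul, map_pow, map_intCast] at h3 ⊢
      have hαK' : algebraMap (𝓞 K) K α = (x : K) - m * (θ : K) := hαK
      rw [hαK'] at h3
      exact h3
    have hyK : (y : K) ^ 2 ≠ 0 := pow_ne_zero 2 (by exact_mod_cast hy)
    exact (mul_right_cancel₀ hyK h1).symm

end field

end Pool.Agent.K7.H89.CL
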