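import Pool.Agent.K7.H89.CL.C
import Pool.Agent.K7.H23.AT.Stm

/-!
# Job CL: the classes of the 2-descent with small representatives
-/

set_option autoImplicit false
set_option linter.all false

open NumberField Module Polynomial

namespace Pool.Agent.K7.H89.CL

section norm

variable {g : ℚ[X]} [hg : Fact (Irreducible g)]

theorem norm_sub_root (hm : g.Monic) (t : ℚ) :
    Algebra.norm ℚ (algebraMap ℚ (AdjoinRoot g) t - AdjoinRoot.root g) = g.eval t := by
  let pb := AdjoinRoot.powerBasis hg.out.ne_zero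
  haveI : FiniteDimensional ℚ (AdjoinRoot g) := pb.finite
  have h1 : Algebra.norm ℚ (algebraMap ℚ (AdjoinRoot g) t - AdjoinRoot.root g) =
      LinearMap.det (algebraMap ℚ (End ℚ (AdjoinRoot g)) t -
        Algebra.lmul ℚ (AdjoinRoot g) (AdjoinRoot.root g)) := by
    rw [Algebra.norm_apply]
    congr 1
    ext z
    simp [sub_mul, Algebra.smul_def]
  rw [h1, ← LinearMap.eval_charpoly]
  congr 1
  have h2 := charpoly_leftMulMatrix pb
  have h3 : (Algebra.leftMulMatrix pb.basis pb.gen).charpoly =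
      (Algebra.lmul ℚ (AdjoinRoot g) (AdjoinRoot.root g)).charpoly := by
    rw [Algebra.leftMulMatrix_apply, LinearMap.charpoly_toMatrix]
    rfl
  rw [← h3, h2]
  have h4 : pb.gen = AdjoinRoot.root g := AdjoinRoot.powerBasis_gen _
  rw [h4, AdjoinRoot.minpoly_root hg.out.ne_zero, hm.leadingCoeff]
  simp

end norm

theorem stCL : Pool.Agent.K7.H23.AT.StCL := by
  classical
  intro f hf hirr
  set fQ := f.map (Int.castRingHom ℚ) with hfQ
  have hm : fQ.Monic := hf.map _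
  have hirrQ : Irreducible fQ :=
    (Polynomial.Monic.irreducible_iff_irreducible_map_fraction_map (K := ℚ) hf).1 hirr
  haveI : Fact (Irreducible fQ) := ⟨hirrQ⟩
  let pb := AdjoinRoot.powerBasis hirrQ.ne_zero
  haveI : CharZero (AdjoinRoot fQ) := algebraRat.charZero _
  haveI : FiniteDimensional ℚ (AdjoinRoot fQ) := pb.finite
  haveI : NumberField (AdjoinRoot fQ) := @NumberField.mk _ _ inferInstance inferInstance
  have hdeg : fQ.natDegree = f.natDegree := hf.natDegree_map _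
  have hn1 : 1 ≤ f.natDegree := by
    rw [← hdeg]
    exact hirrQ.natDegree_pos
  have hfin : f.natDegree = finrank ℚ (AdjoinRoot fQ) := by
    rw [pb.finrank, ← hdeg]
    exact (AdjoinRoot.powerBasis_dim _).symm
  have hrt : aeval (AdjoinRoot.root fQ) f = 0 := by
    have h1 := AdjoinRoot.eval₂_root fQ
    rw [hfQ, eval₂_map] at h1
    have e : (AdjoinRoot.of fQ).comp (Int.castRingHom ℚ) = algebraMap ℤ (AdjoinRoot fQ) :=
      RingHom.ext_int _ _
    rw [← hfQ, e] at h1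
    exact h1
  have hint : IsIntegral ℤ (AdjoinRoot.root fQ) := ⟨f, hf, hrt⟩
  let θ : 𝓞 (AdjoinRoot fQ) := ⟨AdjoinRoot.root fQ, hint⟩
  have hcoe : ∀ P : ℤ[X], ((aeval θ P : 𝓞 (AdjoinRoot fQ)) : AdjoinRoot fQ) =
      aeval (AdjoinRoot.root fQ) P := fun P =>
    (aeval_algebraMap_apply (AdjoinRoot fQ) θ P).symm
  have hmk : ∀ P : ℤ[X], aeval (AdjoinRoot.root fQ) P =
      AdjoinRoot.mk fQ (P.map (Int.castRingHom ℚ)) := by
    intro P
    rw [← AdjoinRoot.aeval_eq, aeval_def, aeval_def, eval₂_map]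
    congr 1
  have hθ : aeval θ f = 0 := by
    apply RingOfIntegers.coe_injective
    rw [map_zero]
    exact (hcoe f).trans hrt
  have hd : aeval θ (derivative f) ≠ 0 := by
    intro h
    have h1 : aeval (AdjoinRoot.root fQ) (derivative f) = 0 := by
      rw [← hcoe, h]
      exact map_zero (algebraMap (𝓞 (AdjoinRoot fQ)) (AdjoinRoot fQ))
    rw [hmk, ← derivative_map, ← AdjoinRoot.aeval_eq] at h1
    have hsep : fQ.Separable := hirrQ.separable
    obtain ⟨a, b, hab⟩ := hsep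
    have h2 := congrArg (AdjoinRoot.mk fQ) hab
    rw [map_add, map_mul, map_mul, AdjoinRoot.mk_self, mul_zero, zero_add, map_one] at h2
    rw [AdjoinRoot.aeval_eq] at h1
    have h3 : AdjoinRoot.mk fQ (derivative fQ) = 0 := h1
    rw [h3, mul_zero] at h2
    exact zero_ne_one h2
  let lam : AdjoinRoot fQ →ₗ[ℚ] ℚ :=
    (lcoeff ℚ (f.natDegree - 1)).comp (AdjoinRoot.modByMonicHom hm)
  have hlam : ∀ P : ℤ[X], P.natDegree < f.natDegree →
      lam ((aeval θ P : 𝓞 (AdjoinRoot fQ)) : AdjoinRoot fQ) =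
        P.coeff (f.natDegree - 1) := by
    intro P hP
    rw [hcoe, hmk]
    show (AdjoinRoot.modByMonicHom hm (AdjoinRoot.mk fQ (P.map (Int.castRingHom ℚ)))).coeff
      (f.natDegree - 1) = _
    rw [AdjoinRoot.modByMonicHom_mk, (modByMonic_eq_self_iff hm).2, coeff_map]
    · rfl
    · apply degree_lt_degree
      rw [hdeg]
      exact (natDegree_map_le).trans_lt hP
  have hN : ∀ x m : ℤ, m ≠ 0 →
      Algebra.norm ℚ ((x : AdjoinRoot fQ) - m * (θ : AdjoinRoot fQ)) =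
        (((f.scaleRoots m).eval x : ℤ) : ℚ) := by
    intro x m hm0
    have hmQ : (m : ℚ) ≠ 0 := by exact_mod_cast hm0
    have h1 : ((x : AdjoinRoot fQ) - m * (θ : AdjoinRoot fQ)) =
        algebraMap ℚ (AdjoinRoot fQ) m *
          (algebraMap ℚ (AdjoinRoot fQ) (x / m) - AdjoinRoot.root fQ) := by
      rw [mul_sub, ← map_mul, mul_div_cancel₀ _ hmQ]
      simp only [map_intCast]
      rfl
    rw [h1, map_mul, Algebra.norm_algebraMap, norm_sub_root hm, ← hfin]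
    have h2 := scaleRoots_eval₂_mul (p := f) (Int.castRingHom ℚ) ((x : ℚ) / m) m
    have h3 : (Int.castRingHom ℚ) m * ((x : ℚ) / m) = (x : ℚ) := by
      rw [eq_intCast, mul_div_cancel₀ _ hmQ]
    rw [h3] at h2
    have h4 : eval₂ (Int.castRingHom ℚ) (x : ℚ) (f.scaleRoots m) =
        (((f.scaleRoots m).eval x : ℤ) : ℚ) := by
      have := eval₂_at_intCast (p := f.scaleRoots m) (Int.castRingHom ℚ) x
      simpa using this
    rw [← h4, h2, hfQ, eval_map]
    rfl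
  obtain ⟨A, hA0, hA⟩ := core hf hn1 hfin hθ hd hlam hN
  obtain ⟨C₀, hC0, hC⟩ := count_small (AdjoinRoot fQ)
  set n := f.natDegree with hn
  have hn0 : (0 : ℝ) < n := by exact_mod_cast hn1
  refine ⟨⌈(C₀ * A + 1) ^ n⌉₊ + ⌈A⌉₊, fun Y hY => ?_⟩
  have hY1 : (1 : ℝ) ≤ Y := by exact_mod_cast hY
  have hY0 : (0 : ℝ) ≤ Y := by linarith
  set R : ℝ := A * (Y : ℝ) ^ (1 / (n : ℝ)) with hR
  have hYn1 : (1 : ℝ) ≤ (Y : ℝ) ^ (1 / (n : ℝ)) := Real.one_le_rpow hY1 (by positivity)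
  have hYle : (Y : ℝ) ^ (1 / (n : ℝ)) ≤ Y := by
    have h1 : (Y : ℝ) ^ (1 / (n : ℝ)) ≤ (Y : ℝ) ^ (1 : ℝ) := by
      apply Real.rpow_le_rpow_of_exponent_le hY1
      rw [div_le_one hn0]
      exact_mod_cast hn1
    rwa [Real.rpow_one] at h1
  have hR0 : 0 ≤ R := by positivity
  obtain ⟨T, hTc, hT⟩ := hC R hR0
  let T' : Finset (𝓞 (AdjoinRoot fQ)) := Finset.filter (fun z : 𝓞 (AdjoinRoot fQ) =>
    z ≠ 0 ∧ ∀ φ : AdjoinRoot fQ →+* ℂ, ‖φ (z : AdjoinRoot fQ)‖ ≤ R) T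
  let S : Finset ℚ[X] := T'.image fun z : 𝓞 (AdjoinRoot fQ) =>
    AdjoinRoot.modByMonicHom hm (z : AdjoinRoot fQ)
  have hli := AdjoinRoot.mk_leftInverse hm
  refine ⟨S, ?_, ?_, ?_⟩
  · have h1 : S.card ≤ T.card := Finset.card_image_le.trans (Finset.card_filter_le _ _)
    have h2 : (S.card : ℝ) ≤ (C₀ * R + 1) ^ n := by
      have h3 : (S.card : ℝ) ≤ T.card := by exact_mod_cast h1
      rw [hfin]
      exact h3.trans hTc
    have h4 : (C₀ * R + 1) ^ n ≤ (C₀ * A + 1) ^ n * Y := by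
      have h5 : C₀ * R + 1 ≤ (C₀ * A + 1) * (Y : ℝ) ^ (1 / (n : ℝ)) := by
        rw [hR]
        nlinarith
      have h6 : ((Y : ℝ) ^ (1 / (n : ℝ))) ^ n = Y := by
        rw [← Real.rpow_natCast, ← Real.rpow_mul hY0, one_div, inv_mul_cancel₀ hn0.ne',
          Real.rpow_one]
      calc (C₀ * R + 1) ^ n ≤ ((C₀ * A + 1) * (Y : ℝ) ^ (1 / (n : ℝ))) ^ n :=
            pow_le_pow_left₀ (by positivity) h5 n
        _ = _ := by rw [mul_pow, h6]
    have h7 : (C₀ * A + 1) ^ n ≤ ((⌈(C₀ * A + 1) ^ n⌉₊ + ⌈A⌉₊ : ℕ) : ℝ) := by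
      push_cast
      have := Nat.le_ceil ((C₀ * A + 1) ^ n)
      have h8 : (0 : ℝ) ≤ (⌈A⌉₊ : ℝ) := by positivity
      linarith
    have h9 : (S.card : ℝ) ≤ ((⌈(C₀ * A + 1) ^ n⌉₊ + ⌈A⌉₊ : ℕ) : ℝ) * Y :=
      (h2.trans h4).trans (mul_le_mul_of_nonneg_right h7 hY0)
    exact_mod_cast h9
  · intro D hD ϑ hϑ
    obtain ⟨z, hz, rfl⟩ := Finset.mem_image.1 hD
    obtain ⟨-, hz0, hzR⟩ := Finset.mem_filter.1 hz
    have h1 : fQ.eval₂ (algebraMap ℚ ℂ) ϑ = 0 := by
      rw [hfQ, eval₂_map]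
      have e : (algebraMap ℚ ℂ).comp (Int.castRingHom ℚ) = algebraMap ℤ ℂ := RingHom.ext_int _ _
      rw [e]
      exact hϑ
    let φ : AdjoinRoot fQ →+* ℂ := AdjoinRoot.lift (algebraMap ℚ ℂ) ϑ h1
    have h2 : aeval ϑ (AdjoinRoot.modByMonicHom hm (z : AdjoinRoot fQ)) = φ z := by
      conv_rhs => rw [← hli (z : AdjoinRoot fQ)]
      rw [AdjoinRoot.lift_mk]
      rfl
    rw [h2]
    refine ⟨?_, ?_, ?_⟩
    · exact (RingOfIntegers.isIntegral_coe z).map φ.toIntAlgHom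
    · intro h3
      apply hz0
      apply RingOfIntegers.coe_injective
      rw [map_zero]
      exact (map_eq_zero φ).1 h3
    · refine (hzR φ).trans ?_
      have h4 : A ≤ ((⌈(C₀ * A + 1) ^ n⌉₊ + ⌈A⌉₊ : ℕ) : ℝ) := by
        push_cast
        have := Nat.le_ceil A
        have h8 : (0 : ℝ) ≤ (⌈(C₀ * A + 1) ^ n⌉₊ : ℝ) := by positivity
        linarith
      rw [hR]
      exact mul_le_mul h4 hYle (by positivity) (by positivity)
  · intro x m g y hm0 hxm hg hgY hy hF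
    obtain ⟨δ, hδ0, hδ, b, hb⟩ := hA x m g y hm0 hxm hg.ne_zero hy hF
    refine ⟨AdjoinRoot.modByMonicHom hm (δ : AdjoinRoot fQ), ?_,
      AdjoinRoot.modByMonicHom hm b, ?_⟩
    · have h1 : ∀ φ : AdjoinRoot fQ →+* ℂ, ‖φ δ‖ ≤ R := by
        intro φ
        refine (hδ φ).trans ?_
        rw [hR]
        refine mul_le_mul_of_nonneg_left ?_ hA0.le
        apply Real.rpow_le_rpow (abs_nonneg _) _ (by positivity)
        exact_mod_cast hgY
      exact Finset.mem_image.2 ⟨δ, Finset.mem_filter.2 ⟨hT δ h1, hδ0, h1⟩, rfl⟩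
    · rw [← AdjoinRoot.mk_eq_zero]
      rw [map_sub, map_mul, map_pow, map_sub, map_mul, hli, hli, AdjoinRoot.mk_X, AdjoinRoot.mk_C,
        AdjoinRoot.mk_C, hb]
      simp only [map_intCast]
      exact sub_self _

end Pool.Agent.K7.H89.CL
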